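import Pool.Agent.Helper50.VD.Core
import Pool.Agent.Helper50.VD.All

/-!
# Uniqueness of energy maximising vortex dipole patches (full answer to Q1)

There are μs > 0 and a single patch ω0 of impulse μ0 > 0 such that
(a) for 0 < μ ≤ μs the maximisers of the energy in the class K_μ are exactly the functions
ω0((x - (τ,0)) / r) with r ^ 3 * μ0 = μ, and
(b) for μ > μs every maximiser vanishes in a strip 0 < x₂ < δ.
-/

open MeasureTheory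

namespace Pool.Agent.Results.MP_22dedb_an.DipoleUniqueness

theorem result :
    ∃ μs : ℝ, 0 < μs ∧ ∃ μ0 : ℝ, 0 < μ0 ∧ ∃ ω0 : ℝ × ℝ → ℝ, VD.InK μ0 ω0 ∧
      (∀ μ : ℝ, 0 < μ → μ ≤ μs → ∀ ω : ℝ × ℝ → ℝ, VD.InS μ ω ↔
        ∃ r τ : ℝ, 0 < r ∧ r ^ 3 * μ0 = μ ∧
          ω =ᵐ[volume] fun x => ω0 ((x.1 - τ) / r, x.2 / r)) ∧
      (∀ μ : ℝ, μs < μ → ∀ ω : ℝ × ℝ → ℝ, VD.InS μ ω →
        ∃ δ : ℝ, 0 < δ ∧ ∀ᵐ x : ℝ × ℝ, 0 < x.2 → x.2 < δ → ω x = 0) :=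
  VD.All.pFinal

end Pool.Agent.Results.MP_22dedb_an.DipoleUniqueness
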